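import Pool.Agent.Helper20.EX2.GridDef
import Pool.Agent.Helper29.C2.Kinds

/-!
# Grids in declared binary relations, monadic second-order logic: definitions and statements

A coding of the `n × n` grids in the structures `(V, R)` with `b` declared binary relations and `t`
marks (sets): all data are monadic second-order definable without parameters (`MD`, from
`Helper20/EX2/MDef.lean`; a mark `S` is given as the relation `x = y ∧ x ∈ S`).
-/

set_option autoImplicit false

namespace Pool.Agent.Helper32.TV2

open Pool.Agent.Helper20.Spectra Pool.Agent.Helper20.OP Pool.Agent.Helper20.EX2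
open Pool.Agent.Helper29.C2 (IsLin POrdW POrdH)

/-- `b` binary relations and `t` marks as one structure; a mark is a part of the equality -/
def mkM {b : ℕ} (t : ℕ) {V : Type} (R : Fin b → V → V → Prop) (S : Fin t → Set V) : Str (b + t) V :=
  fun r => Fin.addCases (motive := fun _ => V → V → Prop) R (fun s x y => x = y ∧ x ∈ S s) r

lemma mkM_rel {b t : ℕ} {V : Type} (R : Fin b → V → V → Prop) (S : Fin t → Set V) (i : Fin b) :
    mkM t R S (Fin.castAdd t i) = R i := by
  unfold mkM
  rw [Fin.addCases_left]

lemma mkM_mark {b t : ℕ} {V : Type} (R : Fin b → V → V → Prop) (S : Fin t → Set V) (s : Fin t) (x y : V) :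
    mkM t R S (Fin.natAdd b s) x y ↔ x = y ∧ x ∈ S s := by
  unfold mkM
  rw [Fin.addCases_right]

/-- a definable pair of relations `h`, `u` on a definable part `dom`; a definable condition `ax`
which implies that the universe has `c` times as many elements as `dom` -/
structure Coding (b t : ℕ) where
  dom : ∀ V : Type, Str (b + t) V → V → Prop
  h : ∀ V : Type, Str (b + t) V → V → V → Prop
  u : ∀ V : Type, Str (b + t) V → V → V → Prop
  ax : ∀ V : Type, Str (b + t) V → Prop
  md_dom : MD (b + t) 1 (fun V R v => dom V R (v 0))
  md_h : MD (b + t) 2 (fun V R v => h V R (v 0) (v 1))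
  md_u : MD (b + t) 2 (fun V R v => u V R (v 0) (v 1))
  md_ax : MD (b + t) 0 (fun V R _ => ax V R)
  c : ℕ
  hc : 1 ≤ c
  size : ∀ (V : Type) [Finite V] (R : Str (b + t) V), ax V R →
    Nat.card V = c * Nat.card {x // dom V R x}

/-- the structure `(V, R)` with the marks `S` codes the `n × n` grid -/
def Coding.Codes {b t : ℕ} (T : Coding b t) (n : ℕ) (V : Type) (R : Fin b → V → V → Prop)
    (S : Fin t → Set V) : Prop :=
  T.ax V (mkM t R S) ∧ ∃ e : {x // T.dom V (mkM t R S) x} ≃ Fin n × Fin n,
    (∀ x y, T.h V (mkM t R S) x.1 y.1 ↔ gh n (e x) (e y)) ∧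
    ∀ x y, T.u V (mkM t R S) x.1 y.1 ↔ gu n (e x) (e y)

/-- all grids are coded in the class `K` -/
def Realises {b t : ℕ} (T : Coding b t) (K : ∀ V : Type, (Fin b → V → V → Prop) → Prop) : Prop :=
  ∀ n, 1 ≤ n → ∃ (V : Type) (_ : Finite V) (R : Fin b → V → V → Prop) (S : Fin t → Set V),
    K V R ∧ T.Codes n V R S

/-! ### The five codings -/

/-- two linear orders: `V = Fin n × Fin n`, `c = 1`; row-major and column-major order, marks at the ends
of the rows and of the columns; `h`, `u`: immediate successors, unless the mark holds -/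
def StmtLL : Prop := ∃ (t : ℕ) (T : Coding 2 t), Realises T (fun _ R => IsLin (R 0) ∧ IsLin (R 1))

/-- a linear order and an equivalence relation: row-major order; same column -/
def StmtLE : Prop := ∃ (t : ℕ) (T : Coding 2 t),
  Realises T (fun _ R => IsLin (R 0) ∧ Equivalence (R 1))

/-- two equivalence relations: same row, same column; marks `(i, i)` and `(i, i + 1)` -/
def StmtEE : Prop := ∃ (t : ℕ) (T : Coding 2 t),
  Realises T (fun _ R => Equivalence (R 0) ∧ Equivalence (R 1))

/-- a partial order of width `2` (strict, or its reflexive closure): two chains `a i`, `b i`,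
`i < n * n`, mark on the `a i`; `b j < a i` iff `j ≤ i`, `a i < b j` iff `i + n ≤ j`; `c = 2` -/
def StmtW2 : Prop := ∃ (t : ℕ) (T : Coding 1 t),
  Realises T (fun V R => POrdW 2 V (fun _ => R 0)) ∧
  Realises T (fun _ R => (∀ x, R 0 x x) ∧ ∀ x y z, R 0 x y → R 0 y z → R 0 x z)

/-- a strict partial order of height at most `3` (chains of at most three elements; two suffice):
the incidence poset of the grid with colours `x mod 3`, `y mod 3` on the vertices; `c = 3` -/
def StmtH3 : Prop := ∃ (t : ℕ) (T : Coding 1 t), Realises T (fun V R => POrdH 3 V (fun _ => R 0))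

end Pool.Agent.Helper32.TV2
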