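import Pool.Agent.Helper32.TV2.Syn
import Pool.Agent.Helper20.EX2.Rel

/-!
# Codings of the grids give sets of sizes
-/

set_option autoImplicit false
set_option linter.unusedVariables false

namespace Pool.Agent.Helper32.TV2

open FirstOrder FirstOrder.Language Pool.Agent.Helper20.Spectra Pool.Agent.Helper20.OP
open Pool.Agent.Helper20.EX2
open Pool.Agent.Helper29.C2 (Mso MSat)
open Pool.Agent.Helper14.SS (SFm ArL arI)

/-- grid axioms and the sentence on the lowest row -/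
def Qg (φ : SFm ArL 0 0) (V : Type) (R : Str 2 V) : Prop :=
  GridAx (R 0) (R 1) ∧ RowSat (R 0) (R 1) φ

lemma md_Qg (φ : SFm ArL 0 0) : MDef 2 0 0 (fun V R _ _ => Qg φ V R) :=
  (md_gridAx 0 1).and (md_rowSat 0 1 φ)

lemma Qg_grid {n : ℕ} (hn : 1 ≤ n) (φ : SFm ArL 0 0) {V : Type} (R : Str 2 V)
    (e : V ≃ Fin n × Fin n) (h0 : ∀ x y, R 0 x y ↔ gh n (e x) (e y))
    (h1 : ∀ x y, R 1 x y ↔ gu n (e x) (e y)) :
    Qg φ V R ↔ @Sat ArL (Fin n) (mkS (arI n)) 0 0 φ Fin.elim0 Fin.elim0 := by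
  rw [MDef.iso0 (md_Qg φ) e R]
  have e0 : (fun x y => R 0 (e.symm x) (e.symm y)) = gh n := by
    funext x y
    rw [h0, e.apply_symm_apply, e.apply_symm_apply]
  have e1 : (fun x y => R 1 (e.symm x) (e.symm y)) = gu n := by
    funext x y
    rw [h1, e.apply_symm_apply, e.apply_symm_apply]
  show GridAx (fun x y => R 0 (e.symm x) (e.symm y)) (fun x y => R 1 (e.symm x) (e.symm y)) ∧
    RowSat (fun x y => R 0 (e.symm x) (e.symm y)) (fun x y => R 1 (e.symm x) (e.symm y)) φ ↔ _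
  rw [e0, e1, rowSat_grid]
  exact ⟨fun h => h.2, fun h => ⟨gridAx_grid hn, h⟩⟩

lemma Qg_card {φ : SFm ArL 0 0} {V : Type} {R : Str 2 V} (H : Qg φ V R) :
    ∃ n, 1 ≤ n ∧ Nat.card V = n ^ 2 ∧
      @Sat ArL (Fin n) (mkS (arI n)) 0 0 φ Fin.elim0 Fin.elim0 := by
  obtain ⟨n, hn, e, h1, h2⟩ := H.1.exists_equiv
  refine ⟨n, hn, ?_, (Qg_grid hn φ R e h1 h2).1 H⟩
  rw [Nat.card_congr e, pow_two]
  simp

variable {b t : ℕ}

/-- the coded structure -/
def Coding.str (T : Coding b t) (V : Type) (R : Str (b + t) V) : Str 2 {x // T.dom V R x} :=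
  fun s x y => if s = 0 then T.h V R x.1 y.1 else T.u V R x.1 y.1

/-- the condition -/
def Coding.P (T : Coding b t) (φ : SFm ArL 0 0) (V : Type) (R : Str (b + t) V) : Prop :=
  T.ax V R ∧ Qg φ {x // T.dom V R x} (T.str V R)

lemma Coding.md_P (T : Coding b t) (φ : SFm ArL 0 0) :
    MD (b + t) 0 (fun V R _ => T.P φ V R) := by
  obtain ⟨χ, hχ⟩ := md_Qg φ
  have h1 : ∀ s : Fin 2, MD (b + t) 2 (fun V R w => if s = 0 then T.h V R (w 0) (w 1)
      else T.u V R (w 0) (w 1)) := by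
    intro s
    by_cases hs : s = 0
    · simp only [if_pos hs]
      exact T.md_h
    · simp only [if_neg hs]
      exact T.md_u
  have h2 := mdef_relat (ar := fun _ : Fin 2 => 2) (Z := fun V R x => T.dom V R x) T.md_dom
    (ρ := fun s V R w => if s = 0 then T.h V R (w 0) (w 1) else T.u V R (w 0) (w 1)) h1 χ
  refine (MDef.and T.md_ax h2).congr fun V R v S => ?_
  refine and_congr Iff.rfl ?_
  have e1 : ∀ h : ∀ i : Fin 0, T.dom V R (v i),
      (fun i => (⟨v i, h i⟩ : {x // T.dom V R x})) = Fin.elim0 := fun h => funext fun i => i.elim0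
  have e2 : (fun j : Fin 0 => {x : {x // T.dom V R x} | x.1 ∈ S j}) = Fin.elim0 :=
    funext fun i => i.elim0
  have h3 := hχ {x // T.dom V R x} (T.str V R) Fin.elim0 Fin.elim0
  constructor
  · intro H h
    rw [e1 h, e2]
    exact h3.2 H
  · intro H
    have h := H (fun i => i.elim0)
    rw [e1, e2] at h
    exact h3.1 h

lemma Coding.P_codes (T : Coding b t) (φ : SFm ArL 0 0) {n : ℕ} (hn : 1 ≤ n) {V : Type}
    {R : Fin b → V → V → Prop} {S : Fin t → Set V} (h : T.Codes n V R S) :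
    T.P φ V (mkM t R S) ↔ @Sat ArL (Fin n) (mkS (arI n)) 0 0 φ Fin.elim0 Fin.elim0 := by
  obtain ⟨h1, e, h2, h3⟩ := h
  have h4 := Qg_grid hn φ (T.str V (mkM t R S)) e (fun x y => h2 x y) (fun x y => h3 x y)
  rw [← h4]
  exact ⟨fun h => h.2, fun h => ⟨h1, h⟩⟩

lemma Coding.P_card (T : Coding b t) {φ : SFm ArL 0 0} {V : Type} [Finite V]
    {R : Str (b + t) V} (h : T.P φ V R) : ∃ n, 1 ≤ n ∧ Nat.card V = T.c * n ^ 2 ∧
      @Sat ArL (Fin n) (mkS (arI n)) 0 0 φ Fin.elim0 Fin.elim0 := by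
  obtain ⟨n, hn, h1, h2⟩ := Qg_card h.2
  exact ⟨n, hn, by rw [T.size V R h.1, h1], h2⟩

/-- **Sizes.** `g`: names of the declared relations -/
theorem Coding.sizes (T : Coding b t) {Λ U : Type} (g : Fin b → Λ)
    {K : ∀ V : Type, (Λ → V → V → Prop) → Prop}
    (hiso : ∀ (V W : Type) (e : V ≃ W) (R : Λ → V → V → Prop), K V R →
      K W (fun l x y => R l (e.symm x) (e.symm y)))
    (hreal : ∀ n, 1 ≤ n → ∃ (V : Type) (_ : Finite V) (R : Λ → V → V → Prop) (S : Fin t → Set V),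
      K V R ∧ T.Codes n V (fun i => R (g i)) S) (φ : SFm ArL 0 0) :
    ∃ Ψ : Mso Λ U, ∀ (un : ∀ n, U → Fin n → Prop) (n : ℕ), (1 ≤ n ∧
      ∃ R : Λ → Fin n → Fin n → Prop, K (Fin n) R ∧ MSat R (un n) Ψ (fun _ => ∅)) ↔
      ∃ m, 1 ≤ m ∧ n = T.c * m ^ 2 ∧
        @Sat ArL (Fin m) (mkS (arI m)) 0 0 φ Fin.elim0 Fin.elim0 := by
  obtain ⟨Ψ, hΨ⟩ := mso_of_md (U := U) (T.md_P φ) g
  refine ⟨Ψ, fun un n => ⟨?_, ?_⟩⟩
  · rintro ⟨hn, R, _, hR⟩
    rw [hΨ] at hR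
    obtain ⟨S, hS⟩ := hR
    obtain ⟨m, hm, h1, h2⟩ := T.P_card hS
    rw [Nat.card_fin] at h1
    exact ⟨m, hm, h1, h2⟩
  · rintro ⟨m, hm, rfl, h⟩
    obtain ⟨V, hV, R, S, hK, hC⟩ := hreal m hm
    have h1 := (T.P_codes φ hm hC).2 h
    obtain ⟨m', hm', h2, -⟩ := T.P_card h1
    have hcard : Nat.card V = T.c * m ^ 2 := by
      rw [T.size V _ hC.1, Nat.card_congr hC.2.choose]
      simp [pow_two]
    let e : V ≃ Fin (T.c * m ^ 2) := (Finite.equivFin V).trans (finCongr hcard)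
    refine ⟨Nat.mul_pos T.hc (pow_pos hm 2), fun l x y => R l (e.symm x) (e.symm y),
      hiso V _ e R hK, ?_⟩
    rw [hΨ]
    refine ⟨fun s => {x | e.symm x ∈ S s}, ?_⟩
    have h3 := (MDef.iso0 (T.md_P φ) e (mkM t (fun i => R (g i)) S)).1 h1
    have h4 : (fun r x y => mkM t (fun i => R (g i)) S r (e.symm x) (e.symm y)) =
        mkM t (fun i x y => R (g i) (e.symm x) (e.symm y)) (fun s => {x | e.symm x ∈ S s}) := by
      funext r x y
      refine Fin.addCases (fun i => ?_) (fun s => ?_) r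
      · rw [mkM_rel, mkM_rel]
      · apply propext
        rw [mkM_mark, mkM_mark, e.symm.injective.eq_iff]
        exact Iff.rfl
    rw [h4] at h3
    exact h3

end Pool.Agent.Helper32.TV2
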