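import Pool.Agent.Helper32.TV2.Frame
import Pool.Agent.Helper29.C2.Kinds3
import Pool.Agent.Helper12.SS.AMain

/-!
# Declared relations: sets of sizes which are not rudimentary
-/

set_option autoImplicit false
set_option linter.unusedVariables false

namespace Pool.Agent.Helper32.TV2

open FirstOrder FirstOrder.Language Pool.Agent.Helper20 Pool.Agent.Helper20.Spectra
open Pool.Agent.Helper20.EX2 (gh gu holds_iff_sat)
open Pool.Agent.Helper29.C2
open Pool.Agent.Helper14.SS (SFm ArL arI arithS)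
open Pool.Agent.Helper12.SS (RudAdv aDiag')
open Pool.Agent.Helper38.DG (advPre)

/-- conversion to the formulas with bounded set quantifiers -/
lemma holds_fin {L : FirstOrder.Language.{0, 0}} {n : ℕ} (T : L.Structure (Fin n)) (φ : SFm L 0 0) :
    @SFm.Holds L (Fin n) T n 0 0 φ Fin.elim0 Fin.elim0 ↔
      @EX2.Sat L (Fin n) T 0 0 φ Fin.elim0 Fin.elim0 := by
  refine (holds_iff_sat (by simp) φ Fin.elim0 Fin.elim0).trans ?_
  have e : (fun j : Fin 0 => (((Fin.elim0 : Fin 0 → Finset (Fin n)) j : Finset (Fin n)) :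
      Set (Fin n))) = Fin.elim0 := funext fun j => j.elim0
  rw [e]

/-- The sets of sizes of the structures in which the background is in `K` and which satisfy a
two-variable sentence `Φ` with counting quantifiers and a monadic second-order sentence `Ψ` on the
background and the unary relations. -/
def C2MSpectrum {Λ : Type} (K : ∀ A : Type, (Λ → A → A → Prop) → Prop) (S : Set ℕ) : Prop :=
  ∃ (U V : Type) (_ : Finite U) (_ : Finite V) (Φ : Fm Λ U V) (Ψ : Mso Λ U),
    S = {n : ℕ | 1 ≤ n ∧ ∃ M : Str Λ U V (Fin n), K (Fin n) M.ord ∧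
      (∀ e, Sat M Φ e) ∧ MSat M.ord M.un Ψ (fun _ => ∅)}

lemma c2M_of_c2 {Λ : Type} {K : ∀ A : Type, (Λ → A → A → Prop) → Prop} {S : Set ℕ}
    (h : C2Spectrum K S) : C2MSpectrum K S := by
  obtain ⟨U, V, hU, hV, Φ, hS⟩ := h
  refine ⟨U, V, hU, hV, Φ, .sub 0 0, ?_⟩
  rw [hS]
  ext n
  refine and_congr Iff.rfl (exists_congr fun M => and_congr Iff.rfl ?_)
  exact ⟨fun h => ⟨h, le_rfl⟩, fun h => h.1⟩

lemma c2M_of_mso {Λ : Type} {K : ∀ A : Type, (Λ → A → A → Prop) → Prop} {S : Set ℕ}
    (Ψ : Mso Λ Empty) (h : ∀ n, n ∈ S ↔ 1 ≤ n ∧ ∃ R : Λ → Fin n → Fin n → Prop, K (Fin n) R ∧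
      MSat R (fun P _ => P.elim) Ψ (fun _ => ∅)) : C2MSpectrum K S := by
  refine ⟨Empty, Empty, inferInstance, inferInstance, .neg (.and .eq (.neg .eq)), Ψ, ?_⟩
  ext n
  rw [h]
  refine and_congr Iff.rfl ?_
  constructor
  · rintro ⟨R, h1, h2⟩
    exact ⟨⟨R, fun P _ => P.elim, fun P => P.elim⟩, h1, fun e h => h.2 h.1, h2⟩
  · rintro ⟨M, h1, _, h2⟩
    refine ⟨M.ord, h1, ?_⟩
    have e : M.un = fun P _ => P.elim := by
      funext P
      exact P.elim
    rw [e] at h2
    exact h2

/-- **Not rudimentary.** A class `K`, closed under isomorphisms, in which all grids are coded, and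
such that the two-variable spectra over `K` are universal. -/
theorem not_rud {b t : ℕ} (T : Coding b t) {Λ : Type} (g : Fin b → Λ)
    {K : ∀ V : Type, (Λ → V → V → Prop) → Prop}
    (hiso : ∀ (V W : Type) (e : V ≃ W) (R : Λ → V → V → Prop), K V R →
      K W (fun l x y => R l (e.symm x) (e.symm y)))
    (hreal : ∀ n, 1 ≤ n → ∃ (V : Type) (_ : Finite V) (R : Λ → V → V → Prop) (S : Fin t → Set V),
      K V R ∧ T.Codes n V (fun i => R (g i)) S) (hU : PV.Univ (C2Spectrum K)) :
    ∃ S : Set ℕ, C2MSpectrum K S ∧ ¬ RudAdv S := by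
  by_contra hcon
  push Not at hcon
  have hQ : ∀ A, IsSpectrum A → RudAdv A := by
    intro A hA
    obtain ⟨Θ, hΘ⟩ := exists_universal_blocks
    obtain ⟨q, rfl⟩ := hΘ A hA
    obtain ⟨p, S, hS, hp⟩ := hU Θ
    have h1 : RudAdv (squareSizes Θ) := by
      have h2 := advPre S p (hcon S (c2M_of_c2 hS))
      have h3 : squareSizes Θ = {n | 1 ≤ n ∧ p.eval n ∈ S} := by
        ext n
        constructor
        · intro h
          exact ⟨h.1, (hp n h.1).1 h⟩
        · rintro ⟨h, h'⟩
          exact (hp n h).2 h'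
      rw [h3]
      exact h2
    exact advPre _ q h1
  obtain ⟨φ, hφ⟩ := aDiag' hQ
  obtain ⟨Ψ, hΨ⟩ := T.sizes (U := Empty) g hiso hreal φ
  obtain ⟨c, hc⟩ : ∃ c, c = T.c := ⟨_, rfl⟩
  have hc1 : 1 ≤ c := hc ▸ T.hc
  rw [← hc] at hΨ
  have h1 : C2MSpectrum K {n | ∃ m, 1 ≤ m ∧ n = c * m ^ 2 ∧
      @EX2.Sat ArL (Fin m) (mkS (arI m)) 0 0 φ Fin.elim0 Fin.elim0} :=
    c2M_of_mso Ψ (fun n => (hΨ (fun _ P _ => P.elim) n).symm)
  have h2 := advPre _ (Polynomial.C c * Polynomial.X ^ 2) (hcon _ h1)
  refine hφ id monotone_id (fun b => ⟨b + 1, Nat.lt_succ_self b⟩) ?_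
  have h3 : arithS id φ = {n : ℕ | 1 ≤ n ∧
      (Polynomial.C c * Polynomial.X ^ 2 : Polynomial ℕ).eval n ∈ {n | ∃ m, 1 ≤ m ∧
        n = c * m ^ 2 ∧ @EX2.Sat ArL (Fin m) (mkS (arI m)) 0 0 φ Fin.elim0 Fin.elim0}} := by
    ext n
    refine and_congr_right fun hn => ?_
    show @SFm.Holds ArL (Fin n) (mkS (arI n)) n 0 0 φ Fin.elim0 Fin.elim0 ↔ _
    rw [holds_fin]
    simp only [Polynomial.eval_mul, Polynomial.eval_C, Polynomial.eval_pow, Polynomial.eval_X,
      Set.mem_ofPred_eq]
    constructor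
    · intro h
      exact ⟨n, hn, rfl, h⟩
    · rintro ⟨m, hm, h4, h5⟩
      have h6 : n ^ 2 = m ^ 2 := Nat.eq_of_mul_eq_mul_left hc1 h4
      have h7 : n = m := Nat.pow_left_injective (n := 2) (by omega) h6
      rw [h7]
      exact h5
  rw [h3]
  exact h2

/-! ### The kinds -/

lemma background_iso {ι : Type} (κ : ι → Kind) (V W : Type) (e : V ≃ W) (R : ι → V → V → Prop)
    (h : Background κ V R) : Background κ W (fun l x y => R l (e.symm x) (e.symm y)) := by
  obtain ⟨B, hB⟩ := univN_background κ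
  rw [hB] at h ⊢
  intro w
  have h1 := h (fun i => e.symm (w i))
  simp only [e.symm.injective.eq_iff] at h1
  exact h1

lemma exists_holds_fin (κ : Kind) (V : Type) [Finite V] : ∃ R : V → V → Prop, κ.Holds R := by
  obtain ⟨R, hR⟩ := κ.exists_holds (Nat.card V)
  exact ⟨_, background_iso (fun _ : Unit => κ) _ _ (Finite.equivFin V).symm (fun _ => R)
    (fun _ => hR) ()⟩

lemma real_pair {t : ℕ} {T : Coding 2 t} {K0 : ∀ V : Type, (Fin 2 → V → V → Prop) → Prop}
    (hT : Realises T K0) {ι : Type} (κ : ι → Kind) {i j : ι} (hij : i ≠ j)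
    (hK : ∀ V R, K0 V R → (κ i).Holds (R 0) ∧ (κ j).Holds (R 1)) (n : ℕ) (hn : 1 ≤ n) :
    ∃ (V : Type) (_ : Finite V) (R : ι → V → V → Prop) (S : Fin t → Set V),
      Background κ V R ∧ T.Codes n V (fun s => R ((![i, j] : Fin 2 → ι) s)) S := by
  classical
  obtain ⟨V, hV, R, S, h1, h2⟩ := hT n hn
  obtain ⟨h3, h4⟩ := hK V R h1
  choose D hD using fun l => exists_holds_fin (κ l) V
  refine ⟨V, hV, fun l => if l = i then R 0 else if l = j then R 1 else D l, S, fun l => ?_, ?_⟩
  · by_cases hl : l = i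
    · subst hl
      show (κ l).Holds (if l = l then R 0 else if l = j then R 1 else D l)
      rw [if_pos rfl]
      exact h3
    · by_cases hl' : l = j
      · subst hl'
        show (κ l).Holds (if l = i then R 0 else if l = l then R 1 else D l)
        rw [if_neg hl, if_pos rfl]
        exact h4
      · show (κ l).Holds (if l = i then R 0 else if l = j then R 1 else D l)
        rw [if_neg hl, if_neg hl']
        exact hD l
  · have e : (fun s : Fin 2 => (fun l => if l = i then R 0 else if l = j then R 1 else D l)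
        ((![i, j] : Fin 2 → ι) s)) = R := by
      funext s
      fin_cases s
      · show (if i = i then R 0 else if i = j then R 1 else D i) = R 0
        rw [if_pos rfl]
      · show (if j = i then R 0 else if j = j then R 1 else D j) = R 1
        rw [if_neg (Ne.symm hij), if_pos rfl]
    rw [e]
    exact h2

lemma real_single {t : ℕ} {T : Coding 1 t} {K0 : ∀ V : Type, (Fin 1 → V → V → Prop) → Prop}
    (hT : Realises T K0) {ι : Type} (κ : ι → Kind) (i : ι)
    (hK : ∀ V R, K0 V R → (κ i).Holds (R 0)) (n : ℕ) (hn : 1 ≤ n) :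
    ∃ (V : Type) (_ : Finite V) (R : ι → V → V → Prop) (S : Fin t → Set V),
      Background κ V R ∧ T.Codes n V (fun s => R ((fun _ => i : Fin 1 → ι) s)) S := by
  classical
  obtain ⟨V, hV, R, S, h1, h2⟩ := hT n hn
  have h3 := hK V R h1
  choose D hD using fun l => exists_holds_fin (κ l) V
  refine ⟨V, hV, fun l => if l = i then R 0 else D l, S, fun l => ?_, ?_⟩
  · by_cases hl : l = i
    · subst hl
      show (κ l).Holds (if l = l then R 0 else D l)
      rw [if_pos rfl]
      exact h3
    · show (κ l).Holds (if l = i then R 0 else D l)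
      rw [if_neg hl]
      exact hD l
  · have e : (fun s : Fin 1 => (fun l => if l = i then R 0 else D l)
        ((fun _ => i : Fin 1 → ι) s)) = R := by
      funext s
      fin_cases s
      show (if i = i then R 0 else D i) = R 0
      rw [if_pos rfl]
    rw [e]
    exact h2

/-- **All wild lists of declared relations.** -/
theorem wildM_of (hLL : StmtLL) (hLE : StmtLE) (hEE : StmtEE) (hW2 : StmtW2) (hH3 : StmtH3)
    {ι : Type} (κ : ι → Kind) (h : ¬ ((∀ i j : ι, i = j) ∧ ∀ i, (κ i).IsTame)) :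
    ∃ S : Set ℕ, C2MSpectrum (Background κ) S ∧ ¬ RudAdv S := by
  have hU := univ_background h
  by_cases h1 : ∀ i, (κ i).IsTame
  · have h2 : ∃ i j : ι, i ≠ j := by
      by_contra h3
      push Not at h3
      exact h ⟨h3, h1⟩
    obtain ⟨i, j, hij⟩ := h2
    obtain ⟨bi, hbi⟩ := exists_base (h1 i)
    obtain ⟨bj, hbj⟩ := exists_base (h1 j)
    have ki : ∀ (V : Type) (R : V → V → Prop), (baseK bi).Holds R → (κ i).Holds R :=
      fun V R hR => ((hbi V R).1 hR).1
    have kj : ∀ (V : Type) (R : V → V → Prop), (baseK bj).Holds R → (κ j).Holds R :=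
      fun V R hR => ((hbj V R).1 hR).1
    cases bi <;> cases bj
    · obtain ⟨t, T, hT⟩ := hEE
      exact not_rud T _ (background_iso κ) (real_pair hT κ hij
        (fun V R hR => ⟨ki V _ hR.1, kj V _ hR.2⟩)) hU
    · obtain ⟨t, T, hT⟩ := hLE
      exact not_rud T _ (background_iso κ) (real_pair hT κ (Ne.symm hij)
        (fun V R hR => ⟨kj V _ hR.1, ki V _ hR.2⟩)) hU
    · obtain ⟨t, T, hT⟩ := hLE
      exact not_rud T _ (background_iso κ) (real_pair hT κ hij
        (fun V R hR => ⟨ki V _ hR.1, kj V _ hR.2⟩)) hU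
    · obtain ⟨t, T, hT⟩ := hLL
      exact not_rud T _ (background_iso κ) (real_pair hT κ hij
        (fun V R hR => ⟨ki V _ hR.1, kj V _ hR.2⟩)) hU
  · push Not at h1
    obtain ⟨i, hi⟩ := h1
    obtain ⟨t, T, hT, hT'⟩ := hW2
    have hS : ∀ V R, POrdW 2 V (fun _ => (R : Fin 1 → V → V → Prop) 0) → κ i = .width2 ∨
        κ i = .order ∨ κ i = .transitive → (κ i).Holds (R 0) := by
      rintro V R hR (h2 | h2 | h2)
      · rw [h2]; exact hR
      · rw [h2]; exact ⟨hR.po.irr, hR.po.trans⟩
      · rw [h2]; exact hR.po.trans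
    cases hk : κ i with
    | linear => rw [hk] at hi; exact (hi trivial).elim
    | weak => rw [hk] at hi; exact (hi trivial).elim
    | equiv => rw [hk] at hi; exact (hi trivial).elim
    | forest => rw [hk] at hi; exact (hi trivial).elim
    | nfree => rw [hk] at hi; exact (hi trivial).elim
    | width2 => exact not_rud T _ (background_iso κ) (real_single hT κ i
        (fun V R hR => hS V R hR (Or.inl hk))) hU
    | order => exact not_rud T _ (background_iso κ) (real_single hT κ i
        (fun V R hR => hS V R hR (Or.inr (Or.inl hk)))) hU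
    | transitive => exact not_rud T _ (background_iso κ) (real_single hT κ i
        (fun V R hR => hS V R hR (Or.inr (Or.inr hk)))) hU
    | preorder => exact not_rud T _ (background_iso κ) (real_single hT' κ i
        (fun V R hR => by rw [hk]; exact hR)) hU
    | height3 =>
      obtain ⟨t', T', hT''⟩ := hH3
      exact not_rud T' _ (background_iso κ) (real_single hT'' κ i
        (fun V R hR => by rw [hk]; exact hR)) hU

end Pool.Agent.Helper32.TV2
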