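import Pool.Agent.Helper32.TV2.Defs

/-!
# From monadic second-order definability (`MD`) to the syntax `Mso`
-/

set_option autoImplicit false
set_option linter.unusedVariables false

namespace Pool.Agent.Helper32.TV2

open FirstOrder FirstOrder.Language Pool.Agent.Helper20.Spectra Pool.Agent.Helper20.OP
open Pool.Agent.Helper20.EX2
open Pool.Agent.Helper29.C2 (Mso MSat)
open Pool.Agent.Helper14.SS (SFm)

variable {Λ U : Type} {b t : ℕ}

private lemma term_var32 {k n : ℕ} (s : (binLang (b + t)).Term (Fin k ⊕ Fin n)) :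
    ∃ i : Fin k ⊕ Fin n, s = Term.var i := by
  cases s with
  | var x => exact ⟨x, rfl⟩
  | func f _ => exact Empty.elim f

/-- a name larger than finitely many names -/
lemma exists_fresh {α : Type} [Finite α] (f : α → ℕ) (t : ℕ) : ∃ N, t ≤ N ∧ ∀ i, f i < N := by
  have := Fintype.ofFinite α
  refine ⟨t + ∑ i, f i + 1, by omega, fun i => ?_⟩
  have := Finset.single_le_sum (f := f) (fun j _ => Nat.zero_le _) (Finset.mem_univ i)
  omega

lemma tr_fo (g : Fin b → Λ) {k n : ℕ} (φ : (binLang (b + t)).BoundedFormula (Fin k) n) :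
    ∀ f : Fin k ⊕ Fin n → ℕ, ∃ Ψ : Mso Λ U, ∀ (A : Type) (R : Λ → A → A → Prop) (un : U → A → Prop)
      (X : ℕ → Set A) (v : Fin k → A) (w : Fin n → A), (∀ i, X (f i) = {Sum.elim v w i}) →
      (MSat R un Ψ X ↔ @BoundedFormula.Realize _ A
        (toStr (mkM t (fun i => R (g i)) (fun s => X s))) _ _ φ v w) := by
  induction φ with
  | falsum =>
    intro f
    exact ⟨.neg (.sub 0 0), fun A R un X v w h => iff_of_false (fun h1 => h1 le_rfl) (fun h1 => h1)⟩
  | equal t₁ t₂ =>
    intro f
    obtain ⟨i, rfl⟩ := term_var32 t₁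
    obtain ⟨j, rfl⟩ := term_var32 t₂
    refine ⟨.sub (f i) (f j), fun A R un X v w h => ?_⟩
    show X (f i) ⊆ X (f j) ↔ Sum.elim v w i = Sum.elim v w j
    rw [h, h, Set.singleton_subset_singleton]
  | rel ρ ts =>
    intro f
    obtain ⟨r, hr⟩ := ρ
    subst hr
    obtain ⟨i, hi⟩ := term_var32 (ts 0)
    obtain ⟨j, hj⟩ := term_var32 (ts 1)
    have key : ∀ (A : Type) (R : Str (b + t) A) (v : Fin k → A) (w : Fin _ → A),
        @BoundedFormula.Realize _ A (toStr R) _ _
          (BoundedFormula.rel (⟨r, rfl⟩ : (binLang (b + t)).Relations 2) ts) v w ↔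
        R r (Sum.elim v w i) (Sum.elim v w j) := by
      intro A R v w
      let _ := toStr R
      show R r ((ts 0).realize (Sum.elim v w)) ((ts 1).realize (Sum.elim v w)) ↔ _
      rw [hi, hj]
      exact Iff.rfl
    refine Fin.addCases (fun l => ?_) (fun s => ?_) r (motive := fun r =>
      (∀ (A : Type) (R : Str (b + t) A) (v : Fin k → A) (w : Fin _ → A),
        @BoundedFormula.Realize _ A (toStr R) _ _
          (BoundedFormula.rel (⟨r, rfl⟩ : (binLang (b + t)).Relations 2) ts) v w ↔
        R r (Sum.elim v w i) (Sum.elim v w j)) → ∃ Ψ : Mso Λ U, ∀ (A : Type) (R : Λ → A → A → Prop)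
        (un : U → A → Prop) (X : ℕ → Set A) (v : Fin k → A) (w : Fin _ → A),
        (∀ i, X (f i) = {Sum.elim v w i}) →
        (MSat R un Ψ X ↔ @BoundedFormula.Realize _ A
        (toStr (mkM t (fun i => R (g i)) (fun s => X s))) _ _
          (BoundedFormula.rel (⟨r, rfl⟩ : (binLang (b + t)).Relations 2) ts) v w)) key
    · intro key
      refine ⟨.ord (g l) (f i) (f j), fun A R un X v w h => ?_⟩
      rw [key, mkM_rel]
      show (∃ x ∈ X (f i), ∃ y ∈ X (f j), R (g l) x y) ↔ _
      rw [h, h]
      simp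
    · intro key
      refine ⟨.and (.sub (f i) (f j)) (.sub (f i) s), fun A R un X v w h => ?_⟩
      rw [key, mkM_mark]
      show (X (f i) ⊆ X (f j) ∧ X (f i) ⊆ X s) ↔ _
      rw [h, h, Set.singleton_subset_singleton, Set.singleton_subset_iff]
  | imp φ ψ ih ih' =>
    intro f
    obtain ⟨Ψ, h1⟩ := ih f
    obtain ⟨Ψ', h2⟩ := ih' f
    refine ⟨.neg (.and Ψ (.neg Ψ')), fun A R un X v w h => ?_⟩
    have e1 := h1 A R un X v w h
    have e2 := h2 A R un X v w h
    show ¬ (MSat R un Ψ X ∧ ¬ MSat R un Ψ' X) ↔ (_ → _)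
    rw [e1, e2]
    tauto
  | @all n φ ih =>
    intro f
    obtain ⟨N, hN, hf⟩ := exists_fresh f t
    obtain ⟨Ψ, h1⟩ := ih (Sum.elim (fun i => f (Sum.inl i)) (Fin.snoc (fun i => f (Sum.inr i)) N))
    refine ⟨.neg (.ex N (.and (.sing N) (.neg Ψ))), fun A R un X v w h => ?_⟩
    show (¬ ∃ S : Set A, (∃! x, x ∈ Function.update X N S N) ∧
      ¬ MSat R un Ψ (Function.update X N S)) ↔ ∀ x : A, _
    have e0 : ∀ x : A, (MSat R un Ψ (Function.update X N {x}) ↔
        @BoundedFormula.Realize _ A (toStr (mkM t (fun i => R (g i)) (fun s => X s))) _ _ φ v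
          (Fin.snoc w x)) := by
      intro x
      have h2 := h1 A R un (Function.update X N {x}) v (Fin.snoc w x) (by
        rintro (i | i)
        · have h3 := (hf (Sum.inl i)).ne
          show Function.update X N {x} (f (Sum.inl i)) = {v i}
          rw [Function.update_of_ne h3]
          exact h (Sum.inl i)
        · refine Fin.lastCases ?_ (fun i => ?_) i
          · show Function.update X N {x} ((Fin.snoc (fun i => f (Sum.inr i)) N : Fin (n + 1) → ℕ)
              (Fin.last n)) = {(Fin.snoc w x : Fin (n + 1) → A) (Fin.last n)}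
            rw [Fin.snoc_last, Fin.snoc_last, Function.update_self]
          · have h3 := (hf (Sum.inr i)).ne
            show Function.update X N {x} ((Fin.snoc (fun i => f (Sum.inr i)) N : Fin (n + 1) → ℕ)
              i.castSucc) = {(Fin.snoc w x : Fin (n + 1) → A) i.castSucc}
            rw [Fin.snoc_castSucc, Fin.snoc_castSucc, Function.update_of_ne h3]
            exact h (Sum.inr i))
      have h4 : (fun s : Fin t => Function.update X N {x} (s : ℕ)) = fun s : Fin t => X s := by
        funext s
        rw [Function.update_of_ne (by have := s.is_lt; omega)]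
      rw [h4] at h2
      exact h2
    constructor
    · intro h2 x
      by_contra h3
      refine h2 ⟨{x}, ⟨x, ?_, fun y hy => ?_⟩, fun h4 => h3 ((e0 x).1 h4)⟩
      · show x ∈ Function.update X N {x} N
        rw [Function.update_self]
        exact rfl
      · rw [Function.update_self] at hy
        exact hy
    · rintro h2 ⟨S, ⟨x, hx, hx'⟩, h3⟩
      rw [Function.update_self] at hx
      have hS : S = {x} := by
        ext y
        constructor
        · intro hy
          exact hx' y (by rw [Function.update_self]; exact hy)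
        · rintro rfl
          exact hx
      rw [hS] at h3
      exact h3 ((e0 x).2 (h2 x))

lemma tr_sfm (g : Fin b → Λ) {k m : ℕ} (φ : SFm (binLang (b + t)) k m) :
    ∀ (f : Fin k → ℕ) (gm : Fin m → ℕ), ∃ Ψ : Mso Λ U, ∀ (A : Type) (R : Λ → A → A → Prop)
      (un : U → A → Prop) (X : ℕ → Set A) (v : Fin k → A) (S : Fin m → Set A),
      (∀ i, X (f i) = {v i}) → (∀ j, X (gm j) = S j) →
      (MSat R un Ψ X ↔ @Sat _ A (toStr (mkM t (fun i => R (g i)) (fun s => X s))) k m φ v S) := by
  induction φ with
  | @fo k m φ =>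
    intro f gm
    obtain ⟨Ψ, h1⟩ := tr_fo (U := U) g φ (Sum.elim f Fin.elim0)
    refine ⟨Ψ, fun A R un X v S h _ => ?_⟩
    refine (h1 A R un X v default (by
      rintro (i | i)
      · exact h i
      · exact i.elim0)).trans Iff.rfl
  | mem i j =>
    intro f gm
    refine ⟨.sub (f i) (gm j), fun A R un X v S h h' => ?_⟩
    show X (f i) ⊆ X (gm j) ↔ v i ∈ S j
    rw [h, h', Set.singleton_subset_iff]
  | not φ ih =>
    intro f gm
    obtain ⟨Ψ, h1⟩ := ih f gm
    exact ⟨.neg Ψ, fun A R un X v S h h' => not_congr (h1 A R un X v S h h')⟩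
  | and φ ψ ih ih' =>
    intro f gm
    obtain ⟨Ψ, h1⟩ := ih f gm
    obtain ⟨Ψ', h2⟩ := ih' f gm
    exact ⟨.and Ψ Ψ', fun A R un X v S h h' => and_congr (h1 A R un X v S h h')
      (h2 A R un X v S h h')⟩
  | @ex k m φ ih =>
    intro f gm
    obtain ⟨N, hN, hf⟩ := exists_fresh (Sum.elim f gm) t
    have hfl : ∀ i, f i ≠ N := fun i => (hf (Sum.inl i)).ne
    have hfr : ∀ j, gm j ≠ N := fun j => (hf (Sum.inr j)).ne
    obtain ⟨Ψ, h1⟩ := ih (Fin.cons N f) gm
    refine ⟨.ex N (.and (.sing N) Ψ), fun A R un X v S h h' => ?_⟩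
    show (∃ Y : Set A, (∃! x, x ∈ Function.update X N Y N) ∧
      MSat R un Ψ (Function.update X N Y)) ↔ ∃ x : A, _
    have e0 : ∀ x : A, (MSat R un Ψ (Function.update X N {x}) ↔
        @Sat _ A (toStr (mkM t (fun i => R (g i)) (fun s => X s))) (k + 1) m φ (Fin.cons x v) S) := by
      intro x
      have h2 := h1 A R un (Function.update X N {x}) (Fin.cons x v) S (by
        refine Fin.cases ?_ (fun i => ?_)
        · rw [Fin.cons_zero, Fin.cons_zero, Function.update_self]
        · rw [Fin.cons_succ, Fin.cons_succ, Function.update_of_ne (hfl i)]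
          exact h i) (fun j => by
          rw [Function.update_of_ne (hfr j)]
          exact h' j)
      have h4 : (fun s : Fin t => Function.update X N {x} (s : ℕ)) = fun s : Fin t => X s := by
        funext s
        rw [Function.update_of_ne (by have := s.is_lt; omega)]
      rw [h4] at h2
      exact h2
    constructor
    · rintro ⟨Y, ⟨x, hx, hx'⟩, h3⟩
      rw [Function.update_self] at hx
      have hS : Y = {x} := by
        ext y
        constructor
        · intro hy
          exact hx' y (by rw [Function.update_self]; exact hy)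
        · rintro rfl
          exact hx
      rw [hS] at h3
      exact ⟨x, (e0 x).1 h3⟩
    · rintro ⟨x, hx⟩
      refine ⟨{x}, ⟨x, ?_, fun y hy => ?_⟩, (e0 x).2 hx⟩
      · show x ∈ Function.update X N {x} N
        rw [Function.update_self]
        exact rfl
      · rw [Function.update_self] at hy
        exact hy
  | @exSet k m φ ih =>
    intro f gm
    obtain ⟨N, hN, hf⟩ := exists_fresh (Sum.elim f gm) t
    have hfl : ∀ i, f i ≠ N := fun i => (hf (Sum.inl i)).ne
    have hfr : ∀ j, gm j ≠ N := fun j => (hf (Sum.inr j)).ne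
    obtain ⟨Ψ, h1⟩ := ih f (Fin.cons N gm)
    refine ⟨.ex N Ψ, fun A R un X v S h h' => ?_⟩
    show (∃ Y : Set A, MSat R un Ψ (Function.update X N Y)) ↔ ∃ Y : Set A, _
    refine exists_congr fun Y => ?_
    have h2 := h1 A R un (Function.update X N Y) v (Fin.cons Y S) (fun i => by
        rw [Function.update_of_ne (hfl i)]
        exact h i) (by
        refine Fin.cases ?_ (fun j => ?_)
        · rw [Fin.cons_zero, Fin.cons_zero, Function.update_self]
        · rw [Fin.cons_succ, Fin.cons_succ, Function.update_of_ne (hfr j)]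
          exact h' j)
    have h4 : (fun s : Fin t => Function.update X N Y (s : ℕ)) = fun s : Fin t => X s := by
      funext s
      rw [Function.update_of_ne (by have := s.is_lt; omega)]
    rw [h4] at h2
    exact h2

/-- quantifiers for the sets `X 0, ..., X (t - 1)` -/
def exN : ℕ → Mso Λ U → Mso Λ U
  | 0, Ψ => Ψ
  | t + 1, Ψ => exN t (.ex t Ψ)

lemma msat_exN (t : ℕ) : ∀ (Ψ : Mso Λ U) {A : Type} (R : Λ → A → A → Prop) (un : U → A → Prop)
    (X : ℕ → Set A), MSat R un (exN t Ψ) X ↔
      ∃ S : Fin t → Set A, MSat R un Ψ (fun i => if h : i < t then S ⟨i, h⟩ else X i) := by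
  induction t with
  | zero =>
    intro Ψ A R un X
    constructor
    · intro h
      exact ⟨Fin.elim0, h⟩
    · rintro ⟨S, h⟩
      exact h
  | succ t ih =>
    intro Ψ A R un X
    show MSat R un (exN t (.ex t Ψ)) X ↔ _
    rw [ih]
    constructor
    · rintro ⟨S, Y, h⟩
      refine ⟨Fin.snoc S Y, ?_⟩
      convert h using 1
      funext i
      by_cases hi : i < t
      · have h1 : i ≠ t := by omega
        rw [Function.update_of_ne h1, dif_pos hi, dif_pos (by omega)]
        exact Fin.snoc_castSucc (α := fun _ => Set A) Y S ⟨i, hi⟩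
      · by_cases hi' : i = t
        · subst hi'
          rw [Function.update_self, dif_pos (by omega)]
          exact Fin.snoc_last (α := fun _ => Set A) Y S
        · rw [Function.update_of_ne hi', dif_neg hi, dif_neg (by omega)]
    · rintro ⟨S, h⟩
      refine ⟨fun i => S i.castSucc, S (Fin.last t), ?_⟩
      convert h using 1
      funext i
      by_cases hi : i < t
      · have h1 : i ≠ t := by omega
        rw [Function.update_of_ne h1, dif_pos hi, dif_pos (by omega)]
        rfl
      · by_cases hi' : i = t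
        · subst hi'
          rw [Function.update_self, dif_pos (by omega)]
          rfl
        · rw [Function.update_of_ne hi', dif_neg hi, dif_neg (by omega)]

/-- **Syntax.** -/
theorem mso_of_md {P : ∀ V : Type, Str (b + t) V → Prop} (hP : MD (b + t) 0 (fun V R _ => P V R))
    (g : Fin b → Λ) : ∃ Ψ : Mso Λ U, ∀ (A : Type) (R : Λ → A → A → Prop) (un : U → A → Prop)
      (X : ℕ → Set A), MSat R un Ψ X ↔
        ∃ S : Fin t → Set A, P A (mkM t (fun i => R (g i)) S) := by
  obtain ⟨φ, hφ⟩ := hP
  obtain ⟨Ψ, hΨ⟩ := tr_sfm (U := U) g φ Fin.elim0 Fin.elim0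
  refine ⟨exN t Ψ, fun A R un X => ?_⟩
  rw [msat_exN]
  refine exists_congr fun S => ?_
  rw [hΨ A R un _ Fin.elim0 Fin.elim0 (fun i => i.elim0) (fun i => i.elim0)]
  have e : (fun s : Fin t => (if h : (s : ℕ) < t then S ⟨s, h⟩ else X s)) = S := by
    funext s
    rw [dif_pos s.is_lt]
  rw [e]
  exact hφ A _ Fin.elim0 Fin.elim0

end Pool.Agent.Helper32.TV2
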